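import Pool.Agent.N926.F77.B
import Pool.Agent.N926.Sup2.Cg

set_option autoImplicit false

namespace Pool.Agent.Results.MP_77f5f4_nt.CatalanProducts

open Finset

/-- `r ≡ s (mod p^m)`: `r - s = p^m u` with `u` a rational whose denominator is prime to `p` -/
def Congr (p m : ℕ) (r s : ℚ) : Prop := ∃ u : ℚ, ¬ p ∣ u.den ∧ r - s = (p : ℚ) ^ m * u

/-- the Catalan number `C_k = C(2k,k)/(k+1)` -/
def C (k : ℕ) : ℚ := ((2 * k).choose k : ℚ) / ((k : ℚ) + 1)

/-- the second-order Catalan number of the first kind `C_k^{(2)} = C(3k,k)/(2k+1)` -/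
def C2 (k : ℕ) : ℚ := ((3 * k).choose k : ℚ) / (2 * (k : ℚ) + 1)

/-- the second-order Catalan number of the second kind `2 C(3k,k)/(k+1)` -/
def C2bar (k : ℕ) : ℚ := 2 / ((k : ℚ) + 1) * ((3 * k).choose k : ℚ)

open Pool.Agent.N926.Sup Pool.Agent.N926.Sup2 Pool.Agent.N926.F54 Pool.Agent.N926.F37 Pool.Agent.N926.F77

theorem C_eq (k : ℕ) : C k = (catalan k : ℚ) := by
  unfold C
  rw [div_eq_iff (by positivity)]
  have := succ_mul_catalan_eq_centralBinom k
  have h : ((2 * k).choose k : ℚ) = ((Nat.centralBinom k : ℕ) : ℚ) := rfl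
  rw [h, ← this]
  push_cast
  ring

theorem sp_mod (p : ℕ) [hp : Fact p.Prime] (h3 : p ≠ 3) : Dv p 1 (9 * sk p - 2) := by
  have c2 : Dv p 1 (((2*p).choose p : ℚ) - 2) := by
    have h := Choose.choose_modEq_choose_mod_mul_choose_div_nat (n := 2*p) (k := p) (p := p)
    rw [Nat.mul_mod_left, Nat.mod_self, Nat.mul_div_cancel _ hp.out.pos, Nat.div_self hp.out.pos] at h
    have h' : ((2*p).choose p : ℤ) ≡ 2 [ZMOD (p:ℤ)^1] := by
      rw [pow_one]
      have := (Int.natCast_modEq_iff).2 h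
      simpa using this
    have := Dv_of_modEq h'
    simpa using this
  have c3 : Dv p 1 (((3*p).choose p : ℚ) - 3) := by
    have h := Choose.choose_modEq_choose_mod_mul_choose_div_nat (n := 3*p) (k := p) (p := p)
    rw [Nat.mul_mod_left, Nat.mod_self, Nat.mul_div_cancel _ hp.out.pos, Nat.div_self hp.out.pos] at h
    have h' : ((3*p).choose p : ℤ) ≡ 3 [ZMOD (p:ℤ)^1] := by
      rw [pow_one]
      have := (Int.natCast_modEq_iff).2 h
      simpa using this
    have := Dv_of_modEq h'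
    simpa using this
  have c27 : Dv p 1 (((27:ℚ)^p - 27)) := by
    have h' : (27:ℤ)^p ≡ 27 [ZMOD (p:ℤ)^1] := by
      rw [pow_one]
      refine (ZMod.intCast_eq_intCast_iff _ _ p).1 ?_
      push_cast
      exact ZMod.pow_card _
    have := Dv_of_modEq h'
    simpa using this
  have hnd : ¬ p ∣ 27 := by
    intro hd
    have : p ∣ 3^3 := by norm_num; exact hd
    exact h3 ((Nat.prime_dvd_prime_iff_eq hp.out Nat.prime_three).1 (hp.out.dvd_of_dvd_pow this))
  have u27 : padicValRat p (27^p : ℚ) = 0 := by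
    have := unit_nat hnd
    have h27 : padicValRat p (27:ℚ) = 0 := by simpa using this
    rw [padicValRat.pow, h27, mul_zero]
  have d2 : Dv p 0 (((2*p).choose p : ℕ) : ℚ) := Dv.nat _
  have k : Dv p 1 (9 * ((((2*p).choose p : ℕ):ℚ) * (((3*p).choose p : ℕ):ℚ)) - 2 * 27^p) := by
    have a := smul_int 9 ((d2.mul0' c3).add ((c2.mul0 (Dv.nat 3))))
    have b := smul_int 2 c27
    refine Dv_eq ?_ (a.sub b)
    push_cast
    ring
  refine Dv_eq ?_ (k.div_unit u27)
  rw [sk_eq]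
  have : (27:ℚ)^p ≠ 0 := by positivity
  field_simp

theorem main (p : ℕ) [hp : Fact p.Prime] (p3 : 3 < p) {e : ℚ} (he : e * e = 1) (he0 : Dv p 0 e)
    {n n2 : ℕ} (hn : 3*(2*(n:ℚ)+1) = 2*p+e) (hn2 : 3*(2*(n2:ℚ)+1) = 4*p-e)
    (hnh : n < (p-1)/2) (hn2p : n2 < p) :
    Dv p 2 (∑ k ∈ range p, C k * C2 k / 27 ^ k - (2 * e - p)) := by
  have h2 : p ≠ 2 := by omega
  have h3 : p ≠ 3 := by omega
  have hodd : p % 2 = 1 := hp.out.eq_two_or_odd.resolve_left h2
  have hh : p = 2*((p-1)/2)+1 := by omega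
  have a := S_mod h2 h3 hh he he0 hn hn2 hnh hn2p
  have b : Dv p 2 ((p:ℚ) * ((1/2) * (9 * sk p - 2))) :=
    (Dv.p1.mul ((half_int (p := p) h2).mul0' (sp_mod p h3))).mono (by norm_num)
  have c := (smul_int 2 a).sub b
  refine Dv_eq ?_ c
  have e1 : ∑ k ∈ range p, C k * C2 k / 27 ^ k = 2 * ∑ k ∈ range p, sk k / (2*(k:ℚ)+1) - ∑ k ∈ range p, sk k / ((k:ℚ)+1) := by
    rw [mul_sum, ← sum_sub_distrib]
    refine sum_congr rfl fun k _ => ?_
    rw [sk_eq]
    unfold C C2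
    have h1 : (k:ℚ)+1 ≠ 0 := by positivity
    have h2 : 2*(k:ℚ)+1 ≠ 0 := by positivity
    field_simp
    ring
  rw [e1, sum1]
  push_cast
  ring

theorem main2 (p : ℕ) [hp : Fact p.Prime] (p3 : 3 < p) :
    Dv p 1 (∑ k ∈ range p, C k * C2bar k / 27 ^ k - (-7)) := by
  have h2 : p ≠ 2 := by omega
  have h3 : p ≠ 3 := by omega
  have a := sp_mod p h3
  have hs : Dv p 0 (sk p) := by
    have v9 : padicValRat p (9:ℚ) = 0 := by
      have hnd : ¬ p ∣ 9 := by
        intro hd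
        have : p ∣ 3^2 := by norm_num; exact hd
        exact h3 ((Nat.prime_dvd_prime_iff_eq hp.out Nat.prime_three).1 (hp.out.dvd_of_dvd_pow this))
      have := unit_nat hnd
      simpa using this
    refine Dv.of_unit_mul v9 (by norm_num) ?_
    exact Dv_eq (by push_cast; ring) ((a.mono (by norm_num : (0:ℤ) ≤ 1)).add (Dv.nat 2))
  have b : Dv p 1 ((p:ℚ) * ((1/2) * (((81:ℕ):ℚ) * sk p))) :=
    Dv.p1.mul0 ((half_int (p := p) h2).mul0 ((Dv.nat 81).mul0 hs))
  refine Dv_eq ?_ (a.add b)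
  have e1 : ∑ k ∈ range p, C k * C2bar k / 27 ^ k = 2 * ∑ k ∈ range p, sk k / ((k:ℚ)+1)^2 := by
    rw [mul_sum]
    refine sum_congr rfl fun k _ => ?_
    rw [sk_eq]
    unfold C C2bar
    have h1 : (k:ℚ)+1 ≠ 0 := by positivity
    field_simp
  rw [e1, sum2]
  push_cast
  ring

/-- **Q1**: both congruences hold for every prime `p > 3`. -/
theorem result (p : ℕ) [hp : Fact p.Prime] (p3 : 3 < p) :
    Congr p 2 (∑ k ∈ range p, C k * C2 k / 27 ^ k) (2 * (legendreSym 3 (p : ℤ) : ℚ) - p) ∧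
    Congr p 1 (∑ k ∈ range p, C k * C2bar k / 27 ^ k) (-7) := by
  refine ⟨?_, congr_of_Dv (main2 p p3)⟩
  have h2 : p ≠ 2 := by omega
  have h3 : p ≠ 3 := by omega
  have hodd : p % 2 = 1 := hp.out.eq_two_or_odd.resolve_left h2
  have hn3 : p % 3 ≠ 0 := by
    intro h
    rcases (Nat.dvd_prime hp.out).1 (Nat.dvd_of_mod_eq_zero h) with h | h <;> omega
  rcases (by omega : p % 6 = 1 ∨ p % 6 = 5) with h | h
  · obtain ⟨i, hi⟩ : ∃ i, p = 6*i+1 := ⟨p/6, by omega⟩
    have hl : legendreSym 3 (p:ℤ) = 1 := by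
      rw [legendreSym.mod, hi]
      have : (((6*i+1:ℕ):ℤ)) % ((3:ℕ):ℤ) = 1 := by push_cast; omega
      rw [this]
      norm_num
    rw [hl]
    have := main p p3 (e := 1) (by norm_num) Dv.one (n := 2*i) (n2 := 4*i) (by rw [hi]; push_cast; ring)
      (by rw [hi]; push_cast; ring) (by omega) (by omega)
    push_cast
    exact congr_of_Dv this
  · obtain ⟨i, hi⟩ : ∃ i, p = 6*i+5 := ⟨p/6, by omega⟩
    have hl : legendreSym 3 (p:ℤ) = -1 := by
      rw [legendreSym.mod, hi]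
      have : (((6*i+5:ℕ):ℤ)) % ((3:ℕ):ℤ) = 2 := by push_cast; omega
      rw [this]
      norm_num
    rw [hl]
    have := main p p3 (e := -1) (by norm_num) Dv.one.neg (n := 2*i+1) (n2 := 4*i+3) (by rw [hi]; push_cast; ring)
      (by rw [hi]; push_cast; ring) (by omega) (by omega)
    push_cast
    exact congr_of_Dv this

end Pool.Agent.Results.MP_77f5f4_nt.CatalanProducts
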